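import Pool.Agent.L7h33.DQ.Stm

/-!
# Project DQ: AEG
-/

set_option autoImplicit false

namespace Pool.Agent.L7h33.DQ

open Polynomial MeasureTheory Pool.Agent.K7.H54.DP Filter

theorem aeg_one (hMEA : S_MEA) (c : ℝ) (hc : 0 < c) : ∀ᵐ t ∂(volume : Measure ℝ),
    ∃ N₀ : ℕ, ∀ N : ℕ, N₀ ≤ N → t ∉ {t : ℝ | t ∈ Set.Ico (0 : ℝ) 1 ∧ Dio c (pt t) ∧
      GapN (pt t) N (ρN N) (ΓN N)} := by
  obtain ⟨N₀, h₀⟩ := hMEA c hc
  set s : ℕ → Set ℝ := fun N => if N₀ ≤ N then {t : ℝ | t ∈ Set.Ico (0 : ℝ) 1 ∧ Dio c (pt t) ∧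
      GapN (pt t) N (ρN N) (ΓN N)} else ∅ with hs
  have hsum : ∑' N, volume (s N) ≠ ⊤ := by
    have h1 : Summable fun N : ℕ => (1 : ℝ) / (N : ℝ) ^ 2 := Real.summable_one_div_nat_pow.2 (by norm_num)
    have h2 : ∑' N : ℕ, volume (s N) ≤ ∑' N : ℕ, ENNReal.ofReal (1 / (N : ℝ) ^ 2) := by
      apply ENNReal.tsum_le_tsum
      intro N
      by_cases hN : N₀ ≤ N
      · simp only [hs, if_pos hN]
        exact h₀ N hN
      · simp only [hs, if_neg hN, measure_empty]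
        exact bot_le
    exact ne_top_of_le_ne_top (h1.tsum_ofReal_ne_top) h2
  filter_upwards [ae_eventually_notMem hsum] with t ht
  obtain ⟨N₁, hN₁⟩ := eventually_atTop.1 ht
  refine ⟨max N₀ N₁, fun N hN => ?_⟩
  have h := hN₁ N (by omega)
  simp only [hs, if_pos (show N₀ ≤ N by omega)] at h
  exact h

theorem s_aeg (hMEA : S_MEA) (hDIO : S_DIO) : S_AEG := by
  have h1 : ∀ᵐ t ∂(volume.restrict (Set.Ico (0 : ℝ) 1)), ∀ j : ℕ, ∃ N₀ : ℕ, ∀ N : ℕ, N₀ ≤ N →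
      t ∉ {t : ℝ | t ∈ Set.Ico (0 : ℝ) 1 ∧ Dio (1 / ((j : ℝ) + 1)) (pt t) ∧
        GapN (pt t) N (ρN N) (ΓN N)} :=
    ae_restrict_of_ae (ae_all_iff.2 fun j => aeg_one hMEA (1 / ((j : ℝ) + 1)) (by positivity))
  filter_upwards [h1, hDIO, ae_restrict_mem measurableSet_Ico] with t ht ⟨c, hc, hcD⟩ htI
  obtain ⟨j, hj⟩ := exists_nat_one_div_lt hc
  obtain ⟨N₀, hN₀⟩ := ht j
  refine ⟨N₀, fun N hN hG => hN₀ N hN ⟨htI, ?_, hG⟩⟩
  intro d hd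
  refine le_trans ?_ (hcD d hd)
  exact div_le_div_of_nonneg_right hj.le (by positivity)

end Pool.Agent.L7h33.DQ
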