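import Pool.Agent.L7h33.DQ.Stm

/-!
# Project DQ: asymptotics
-/

set_option autoImplicit false

namespace Pool.Agent.L7h33.DQ

open Polynomial MeasureTheory Pool.Agent.K7.H54.DP Filter

theorem big (C : ℝ) (n : ℕ) : ∃ N₀ : ℕ, ∀ N : ℕ, N₀ ≤ N → C * (Real.log N) ^ n ≤ N := by
  have h := (Real.isLittleO_pow_log_id_atTop (n := n)).bound (c := 1 / (|C| + 1)) (by positivity)
  have h2 := (tendsto_natCast_atTop_atTop (R := ℝ)).eventually h
  obtain ⟨N₀, hN₀⟩ := eventually_atTop.1 h2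
  refine ⟨N₀, fun N hN => ?_⟩
  have h3 := hN₀ N hN
  simp only [id, Real.norm_eq_abs, Nat.abs_cast] at h3
  have h4 : C * (Real.log N) ^ n ≤ (|C| + 1) * |Real.log N ^ n| := by
    calc C * (Real.log N) ^ n ≤ |C * (Real.log N) ^ n| := le_abs_self _
      _ = |C| * |Real.log N ^ n| := abs_mul _ _
      _ ≤ (|C| + 1) * |Real.log N ^ n| := by
          apply mul_le_mul_of_nonneg_right (by linarith) (abs_nonneg _)
  refine h4.trans ?_
  have h5 : 0 < |C| + 1 := by positivity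
  calc (|C| + 1) * |Real.log N ^ n| ≤ (|C| + 1) * (1 / (|C| + 1) * N) :=
        mul_le_mul_of_nonneg_left h3 h5.le
    _ = N := by field_simp

theorem log_big (C : ℝ) : ∃ N₀ : ℕ, ∀ N : ℕ, N₀ ≤ N → C ≤ Real.log N := by
  have h := (Real.tendsto_log_atTop.comp (tendsto_natCast_atTop_atTop (R := ℝ))).eventually
    (eventually_ge_atTop C)
  obtain ⟨N₀, hN₀⟩ := eventually_atTop.1 h
  exact ⟨N₀, fun N hN => hN₀ N hN⟩

theorem KN_le {N : ℕ} (h : 1 ≤ Real.log N) : (KN N : ℝ) ≤ 2 * (Real.log N) ^ 8 := by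
  unfold KN
  have h1 := Nat.ceil_lt_add_one (show 0 ≤ (Real.log N) ^ 8 by positivity)
  have h2 : 1 ≤ (Real.log N) ^ 8 := one_le_pow₀ h
  linarith

theorem le_KN (N : ℕ) : (Real.log N) ^ 8 ≤ KN N := Nat.le_ceil _

/-- the inequalities needed in MEA -/
theorem asym : ∃ N₀ : ℕ, ∀ N : ℕ, N₀ ≤ N → 23 ≤ N ∧ 10 ≤ Real.log N ∧ 144 * KN N ≤ N ∧ 1 ≤ KN N ∧
    2 + 12 * (KN N : ℝ) * Real.log N ≤ sN N / 8 ∧ 100 * Real.log N ≤ sN N ∧
    8 * sN N ≤ N ∧ Real.log (N + 1) ≤ 2 * Real.log N ∧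
    2 * N * Real.log (2 * N) < sN N / 2 * KN N := by
  obtain ⟨N₁, h₁⟩ := big 288 8
  obtain ⟨N₂, h₂⟩ := log_big 10
  obtain ⟨N₃, h₃⟩ := big 208 15
  obtain ⟨N₄, h₄⟩ := big 100 7
  refine ⟨max (max 23 N₁) (max N₂ (max N₃ N₄)), fun N hN => ?_⟩
  have hN23 : 23 ≤ N := by omega
  have hL := h₂ N (by omega)
  have h1 := h₁ N (by omega)
  have h3 := h₃ N (by omega)
  have h4 := h₄ N (by omega)
  set L := Real.log N with hLd
  have hL0 : 0 < L := by linarith
  have hNr : (23 : ℝ) ≤ N := by exact_mod_cast hN23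
  have hK := KN_le (N := N) (by linarith)
  rw [← hLd] at hK
  have hK' := le_KN N
  rw [← hLd] at hK'
  have hKpos : (1 : ℝ) ≤ KN N := by
    refine le_trans ?_ hK'
    exact one_le_pow₀ (by linarith)
  refine ⟨hN23, hL, ?_, by exact_mod_cast hKpos, ?_, ?_, ?_, ?_, ?_⟩
  · have : (144 * KN N : ℝ) ≤ N := by linarith
    exact_mod_cast this
  · unfold sN
    rw [← hLd, div_div, le_div_iff₀ (by positivity)]
    have e1 : 2 + 12 * (KN N : ℝ) * L ≤ 26 * L ^ 9 := by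
      have a1 : 12 * (KN N : ℝ) * L ≤ 24 * L ^ 9 := by
        have := mul_le_mul_of_nonneg_right hK hL0.le
        nlinarith
      have a2 : 1 ≤ L ^ 9 := one_le_pow₀ (by linarith)
      linarith
    calc (2 + 12 * (KN N : ℝ) * L) * (L ^ 6 * 8) ≤ 26 * L ^ 9 * (L ^ 6 * 8) :=
          mul_le_mul_of_nonneg_right e1 (by positivity)
      _ = 208 * L ^ 15 := by ring
      _ ≤ N := h3
  · unfold sN
    rw [← hLd, le_div_iff₀ (by positivity)]
    calc (100 * L * L ^ 6 : ℝ) = 100 * L ^ 7 := by ring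
      _ ≤ N := h4
  · unfold sN
    rw [← hLd, ← mul_div_assoc, div_le_iff₀ (by positivity)]
    have : (8 : ℝ) ≤ L ^ 6 := by
      calc (8 : ℝ) ≤ 10 ^ 6 := by norm_num
        _ ≤ L ^ 6 := pow_le_pow_left₀ (by norm_num) hL 6
    nlinarith
  · have : Real.log (N + 1) ≤ Real.log ((N : ℝ) ^ 2) :=
      Real.log_le_log (by positivity) (by nlinarith)
    rw [Real.log_pow] at this
    push_cast at this
    exact this
  · have e1 : Real.log (2 * N) ≤ L + 1 := by
      rw [Real.log_mul (by norm_num) (by positivity), ← hLd]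
      have := Real.log_two_lt_d9
      linarith
    have e2 : N * L ^ 2 / 2 ≤ sN N / 2 * KN N := by
      unfold sN
      rw [← hLd]
      calc N * L ^ 2 / 2 = N / L ^ 6 / 2 * L ^ 8 := by field_simp
        _ ≤ N / L ^ 6 / 2 * KN N := mul_le_mul_of_nonneg_left hK' (by positivity)
    have e3 : 2 * N * Real.log (2 * N) ≤ 2 * N * (L + 1) :=
      mul_le_mul_of_nonneg_left e1 (by positivity)
    have e4 : 2 * N * (L + 1) < N * L ^ 2 / 2 := by
      have : 4 * (L + 1) < L ^ 2 := by nlinarith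
      nlinarith
    linarith

end Pool.Agent.L7h33.DQ
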