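import Pool.Agent.L7h33.DQ.Stm

/-!
# Project DQ: LOC
-/

set_option autoImplicit false

namespace Pool.Agent.L7h33.DQ

open Polynomial MeasureTheory Pool.Agent.K7.H54.DP

theorem zz_norm (θ : ℝ) : ‖zz θ‖ = 1 := by
  unfold zz
  exact Complex.norm_exp_ofReal_mul_I θ

theorem pt_norm (t : ℝ) : ‖pt t‖ = 1 := zz_norm _

theorem pt_sub (a b : ℝ) : ‖pt a - pt b‖ = 2 * |Real.sin (Real.pi * (a - b))| := by
  have h : pt a - pt b = pt b * (Complex.exp (Complex.I * (2 * Real.pi * (a - b) : ℝ)) - 1) := by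
    unfold pt zz
    rw [mul_sub, mul_one, ← Complex.exp_add]
    congr 2
    push_cast
    ring
  rw [h, norm_mul, pt_norm, one_mul, Complex.norm_exp_I_mul_ofReal_sub_one, norm_mul]
  have : 2 * Real.pi * (a - b) / 2 = Real.pi * (a - b) := by ring
  rw [this, Real.norm_eq_abs, Real.norm_eq_abs]
  norm_num

theorem pt_upper (a b : ℝ) : ‖pt a - pt b‖ ≤ 7 * |a - b| := by
  rw [pt_sub]
  have h1 : |Real.sin (Real.pi * (a - b))| ≤ |Real.pi * (a - b)| := Real.abs_sin_le_abs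
  rw [abs_mul, abs_of_pos Real.pi_pos] at h1
  have h2 := Real.pi_lt_d2
  nlinarith [abs_nonneg (a - b)]

theorem pt_lower (a b : ℝ) (h : |a - b| ≤ 1 / 2) : 4 * |a - b| ≤ ‖pt a - pt b‖ := by
  rw [pt_sub]
  have h1 : |Real.pi * (a - b)| ≤ Real.pi / 2 := by
    rw [abs_mul, abs_of_pos Real.pi_pos]
    nlinarith [Real.pi_pos]
  have h2 := Real.mul_abs_le_abs_sin h1
  rw [abs_mul, abs_of_pos Real.pi_pos] at h2
  have h3 : 2 / Real.pi * (Real.pi * |a - b|) = 2 * |a - b| := by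
    field_simp
  rw [h3] at h2
  linarith

theorem ev_eq (D : ℤ[X]) (N : ℕ) (h : D.natDegree < N) (x : ℂ) :
    ev D x = ∑ i ∈ Finset.range N, (D.coeff i : ℂ) * x ^ i := by
  unfold ev
  rw [Polynomial.eval_eq_sum_range' (lt_of_le_of_lt (Polynomial.natDegree_map_le) h)]
  simp

theorem coeff_norm {N : ℕ} {D : ℤ[X]} (h : Flat N D) (i : ℕ) : ‖(D.coeff i : ℂ)‖ ≤ 1 := by
  rw [Complex.norm_intCast]
  exact_mod_cast h.2 i

theorem one_add_inv_pow (N j : ℕ) (hN : 1 ≤ N) (hj : j ≤ N) : (1 + 1 / (N : ℝ)) ^ j ≤ 3 := by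
  have hN' : (0 : ℝ) < N := by exact_mod_cast hN
  have h1 : (1 : ℝ) ≤ 1 + 1 / (N : ℝ) := by
    have : (0 : ℝ) < 1 / N := by positivity
    linarith
  calc (1 + 1 / (N : ℝ)) ^ j ≤ (1 + 1 / (N : ℝ)) ^ N := pow_le_pow_right₀ h1 hj
    _ ≤ (Real.exp (1 / (N : ℝ))) ^ N := by
        apply pow_le_pow_left₀ (by linarith)
        have := Real.add_one_le_exp (1 / (N : ℝ))
        linarith
    _ = Real.exp 1 := by
        rw [← Real.exp_nat_mul]
        congr 1
        field_simp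
    _ ≤ 3 := by
        have := Real.exp_one_lt_d9
        linarith

theorem pow_sub_le (N j : ℕ) (hN : 1 ≤ N) (hj : j ≤ N) (x z : ℂ) (hz : ‖z‖ = 1)
    (hx : ‖x - z‖ ≤ 1 / N) : ‖x ^ j - z ^ j‖ ≤ 3 * N * ‖x - z‖ := by
  have hxn : ‖x‖ ≤ 1 + 1 / (N : ℝ) := by
    calc ‖x‖ = ‖(x - z) + z‖ := by congr 1; ring
      _ ≤ ‖x - z‖ + ‖z‖ := norm_add_le _ _
      _ ≤ 1 + 1 / (N : ℝ) := by rw [hz]; linarith
  rw [← (Commute.all x z).geom_sum₂_mul]
  rw [norm_mul]
  apply mul_le_mul_of_nonneg_right _ (norm_nonneg _)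
  calc ‖∑ i ∈ Finset.range j, x ^ i * z ^ (j - 1 - i)‖
      ≤ ∑ i ∈ Finset.range j, ‖x ^ i * z ^ (j - 1 - i)‖ := norm_sum_le _ _
    _ ≤ ∑ i ∈ Finset.range j, (3 : ℝ) := by
        apply Finset.sum_le_sum
        intro i hi
        rw [Finset.mem_range] at hi
        rw [norm_mul, norm_pow, norm_pow, hz, one_pow, mul_one]
        calc ‖x‖ ^ i ≤ (1 + 1 / (N : ℝ)) ^ i := pow_le_pow_left₀ (norm_nonneg _) hxn i
          _ ≤ 3 := one_add_inv_pow N i hN (by omega)
    _ = 3 * j := by rw [Finset.sum_const, Finset.card_range, nsmul_eq_mul]; ring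
    _ ≤ 3 * N := by
        have : (j : ℝ) ≤ N := by exact_mod_cast hj
        linarith

theorem ev_lip (N : ℕ) (hN : 1 ≤ N) (D : ℤ[X]) (hD : Flat N D) (x z : ℂ) (hz : ‖z‖ = 1)
    (hx : ‖x - z‖ ≤ 1 / N) : ‖ev D x - ev D z‖ ≤ 3 * (N : ℝ) ^ 2 * ‖x - z‖ := by
  rw [ev_eq D N hD.1, ev_eq D N hD.1, ← Finset.sum_sub_distrib]
  calc ‖∑ i ∈ Finset.range N, ((D.coeff i : ℂ) * x ^ i - (D.coeff i : ℂ) * z ^ i)‖
      ≤ ∑ i ∈ Finset.range N, ‖(D.coeff i : ℂ) * x ^ i - (D.coeff i : ℂ) * z ^ i‖ :=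
        norm_sum_le _ _
    _ ≤ ∑ i ∈ Finset.range N, 3 * N * ‖x - z‖ := by
        apply Finset.sum_le_sum
        intro i hi
        rw [Finset.mem_range] at hi
        rw [← mul_sub, norm_mul]
        calc ‖(D.coeff i : ℂ)‖ * ‖x ^ i - z ^ i‖ ≤ 1 * (3 * N * ‖x - z‖) := by
              apply mul_le_mul (coeff_norm hD i) (pow_sub_le N i hN hi.le x z hz hx)
                (norm_nonneg _) zero_le_one
          _ = 3 * N * ‖x - z‖ := one_mul _
    _ = 3 * (N : ℝ) ^ 2 * ‖x - z‖ := by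
        rw [Finset.sum_const, Finset.card_range, nsmul_eq_mul]; ring

theorem J_abs (m : ℕ) (t t' : ℝ) (h : t' ∈ J m t) : |t' - t| ≤ 1 / 2 ^ m := by
  obtain ⟨h1, h2⟩ := h
  have hp : (0 : ℝ) < 2 ^ m := by positivity
  have h3 := Int.floor_le ((2 : ℝ) ^ m * t)
  have h4 := Int.lt_floor_add_one ((2 : ℝ) ^ m * t)
  rw [div_le_iff₀ hp] at h1
  rw [lt_div_iff₀ hp] at h2
  rw [abs_le, le_div_iff₀ hp]
  constructor
  · rw [← sub_nonneg]
    have h5 : (t' - t - -(1 / 2 ^ m)) = ((t' - t) * 2 ^ m + 1) / 2 ^ m := by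
      field_simp
      ring
    rw [h5]
    apply div_nonneg _ hp.le
    nlinarith
  · nlinarith

theorem s_loc (hPTS : S_PTS) (hINT : S_INT) : S_LOC := by
  intro N k M m₀ ρ Γ η E t hN hk hρ hΓ hη hgap htE hdens hm₀ h16 hA hB hC D hD
  have hNp : (0 : ℝ) < N := by exact_mod_cast hN
  have hkp : (0 : ℝ) < k := by exact_mod_cast hk
  -- the claim by downward induction
  have key : ∀ n : ℕ, n ≤ M - m₀ → ∀ x : ℂ, ‖x - pt t‖ ≤ 16 / 2 ^ (M - n) → ‖ev D x‖ ≤ ρ := by
    intro n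
    induction n with
    | zero =>
      intro _ x hx
      rw [Nat.sub_zero] at hx
      have hpM : (0 : ℝ) < 2 ^ M := by positivity
      have h1 : (2 : ℝ) ^ m₀ ≤ 2 ^ M := pow_le_pow_right₀ (by norm_num) hm₀
      have h2 : ‖x - pt t‖ ≤ 1 / N := by
        refine hx.trans ?_
        rw [div_le_div_iff₀ hpM hNp]
        linarith
      have h3 := ev_lip N hN D hD.1 x (pt t) (pt_norm t) h2
      have h4 : ‖ev D (pt t)‖ ≤ ρ / 2 := by
        refine (hgap t htE D hD.1 hD.2).trans ?_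
        apply div_le_div_of_nonneg_left hρ.le (by norm_num) hΓ
      have h5 : 3 * (N : ℝ) ^ 2 * ‖x - pt t‖ ≤ ρ / 2 := by
        calc 3 * (N : ℝ) ^ 2 * ‖x - pt t‖ ≤ 3 * (N : ℝ) ^ 2 * (16 / 2 ^ M) := by
              apply mul_le_mul_of_nonneg_left hx (by positivity)
          _ = 48 * (N : ℝ) ^ 2 / 2 ^ M := by ring
          _ ≤ ρ / 2 := by
              rw [div_le_div_iff₀ hpM (by norm_num)]
              nlinarith [sq_nonneg (N : ℝ)]
      calc ‖ev D x‖ = ‖(ev D x - ev D (pt t)) + ev D (pt t)‖ := by congr 1; ring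
        _ ≤ ‖ev D x - ev D (pt t)‖ + ‖ev D (pt t)‖ := norm_add_le _ _
        _ ≤ ρ := by linarith
    | succ n ih =>
      intro hn x hx
      have ih' := ih (by omega)
      set m := M - (n + 1) with hm
      have hmM : M - n = m + 1 := by omega
      rw [hmM] at ih'
      have hmle : m₀ ≤ m := by omega
      have hpm : (0 : ℝ) < 2 ^ m := by positivity
      have hpm₀ : (0 : ℝ) < 2 ^ m₀ := by positivity
      have h1 : (2 : ℝ) ^ m₀ ≤ 2 ^ m := pow_le_pow_right₀ (by norm_num) hmle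
      have h16m : 16 * (N : ℝ) ≤ 2 ^ m := h16.trans h1
      have hN1 : (1 : ℝ) ≤ N := by exact_mod_cast hN
      have h2m : (2 : ℝ) ≤ 2 ^ m := by linarith
      -- smallness at the points of E ∩ J m t
      have hsm : ∀ t' ∈ E ∩ J m t, ‖ev D (pt t')‖ ≤ ρ / Γ := by
        intro t' ht'
        apply hgap t' ht'.1 D hD.1
        apply ih'
        calc ‖pt t' - pt t‖ ≤ 7 * |t' - t| := pt_upper _ _
          _ ≤ 7 * (1 / 2 ^ m) := by
              apply mul_le_mul_of_nonneg_left (J_abs m t t' ht'.2) (by norm_num)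
          _ ≤ 16 / 2 ^ (m + 1) := by
              rw [pow_succ]
              rw [mul_one_div, div_le_div_iff₀ hpm (by positivity)]
              nlinarith
      -- the nodes
      set κ : ℝ := η / (3 * k * 2 ^ m) with hκ
      have hκp : 0 < κ := by positivity
      have hvol : ENNReal.ofReal (3 * k * κ) ≤ volume (E ∩ J m t) := by
        have : 3 * (k : ℝ) * κ = η / 2 ^ m := by
          rw [hκ]; field_simp
        rw [this]
        exact hdens m (by omega)
      obtain ⟨y, hyE, hysep⟩ := hPTS (E ∩ J m t) κ k hκp hk hvol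
      have hyabs : ∀ i, |y i - t| ≤ 1 / 2 ^ m := fun i => J_abs m t (y i) (hyE i).2
      have hydist : ∀ i j, |y i - y j| ≤ 1 / 2 := by
        intro i j
        obtain ⟨a1, a2⟩ := (hyE i).2
        obtain ⟨b1, b2⟩ := (hyE j).2
        have h5 : |y i - y j| ≤ 1 / 2 ^ m := by
          rw [abs_le]
          have e1 : ((⌊(2 : ℝ) ^ m * t⌋ : ℝ) + 1) / 2 ^ m = (⌊(2 : ℝ) ^ m * t⌋ : ℝ) / 2 ^ m + 1 / 2 ^ m := by
            ring
          constructor <;> linarith
        refine h5.trans ?_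
        rw [div_le_div_iff₀ hpm (by norm_num)]
        linarith
      have hpos4 : 0 < 4 * κ := by positivity
      have hres := hINT D N k (pt t) (fun i => pt (y i)) (23 / 2 ^ m) (4 * κ) (ρ / Γ) hD.1 hN hk
        (pt_norm t) (fun i => pt_norm _) hpos4 (by positivity)
        (by
          intro i j hij
          have := hysep i j hij
          have h6 := pt_lower (y i) (y j) (hydist i j)
          show 4 * κ ≤ ‖pt (y i) - pt (y j)‖
          linarith)
        (fun i => hsm (y i) (hyE i)) x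
        (by
          refine hx.trans ?_
          rw [div_le_div_iff₀ hpm hNp]
          linarith)
        (by
          intro i
          show ‖x - pt (y i)‖ ≤ 23 / 2 ^ m
          calc ‖x - pt (y i)‖ = ‖(x - pt t) + (pt t - pt (y i))‖ := by congr 1; ring
            _ ≤ ‖x - pt t‖ + ‖pt t - pt (y i)‖ := norm_add_le _ _
            _ ≤ 16 / 2 ^ m + 7 * (1 / 2 ^ m) := by
                apply add_le_add hx
                rw [norm_sub_rev]
                exact (pt_upper _ _).trans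
                  (mul_le_mul_of_nonneg_left (hyabs i) (by norm_num))
            _ = 23 / 2 ^ m := by ring)
      have hfirst : (k : ℝ) * (23 / 2 ^ m / (4 * κ)) ^ (k - 1) * (ρ / Γ) ≤ ρ / 2 := by
        have e1 : 23 / 2 ^ m / (4 * κ) = 69 / 4 * k / η := by
          rw [hκ]; field_simp; ring
        have e2 : 23 / 2 ^ m / (4 * κ) ≤ 18 * k / η := by
          rw [e1]
          apply div_le_div_of_nonneg_right _ hη.le
          nlinarith
        have e3 : (23 / 2 ^ m / (4 * κ)) ^ (k - 1) ≤ (18 * k / η) ^ (k - 1) :=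
          pow_le_pow_left₀ (by positivity) e2 _
        have e4 : (k : ℝ) * (23 / 2 ^ m / (4 * κ)) ^ (k - 1) ≤ Γ / 2 := by
          have := mul_le_mul_of_nonneg_left e3 hkp.le
          linarith
        have hΓp : 0 < Γ := by linarith
        calc (k : ℝ) * (23 / 2 ^ m / (4 * κ)) ^ (k - 1) * (ρ / Γ) ≤ Γ / 2 * (ρ / Γ) :=
              mul_le_mul_of_nonneg_right e4 (by positivity)
          _ = ρ / 2 := by field_simp
      have hsecond : 4 * (N : ℝ) ^ (k + 1) * (23 / 2 ^ m) ^ k ≤ ρ / 2 := by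
        refine le_trans ?_ hA
        rw [mul_comm]
        apply mul_le_mul_of_nonneg_right _ (by positivity)
        apply pow_le_pow_left₀ (by positivity)
        apply div_le_div_of_nonneg_left (by norm_num) hpm₀ h1
      linarith
  intro x hx
  apply key (M - m₀) le_rfl x
  have : M - (M - m₀) = m₀ := by omega
  rw [this]
  exact hx

end Pool.Agent.L7h33.DQ
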