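import Pool.Agent.L7h33.DQ.Asy
import Pool.Agent.L7h33.DQ.Loc

/-!
# Project DQ: COM
-/

set_option autoImplicit false

namespace Pool.Agent.L7h33.DQ

open Polynomial MeasureTheory Pool.Agent.K7.H54.DP Filter

/-- the polynomial of a coefficient vector -/
noncomputable def pol (D₁ : ℕ) (b : ℕ → ℤ) : ℤ[X] := ∑ j ∈ Finset.range (D₁ + 1), C (b j) * X ^ j

theorem pol_deg (D₁ : ℕ) (b : ℕ → ℤ) : (pol D₁ b).natDegree ≤ D₁ := by
  unfold pol
  apply Polynomial.natDegree_sum_le_of_forall_le
  intro j hj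
  rw [Finset.mem_range] at hj
  exact (Polynomial.natDegree_C_mul_X_pow_le _ _).trans (by omega)

theorem ev_mul (P Q : ℤ[X]) (z : ℂ) : ev (P * Q) z = ev P z * ev Q z := by
  unfold ev
  rw [Polynomial.map_mul, Polynomial.eval_mul]

theorem ev_pol (D₁ : ℕ) (b : ℕ → ℤ) (θ : ℝ) : ev (pol D₁ b) (zz θ) = val θ D₁ b := by
  unfold ev pol val
  rw [Polynomial.map_sum, Polynomial.eval_finset_sum]
  apply Finset.sum_congr rfl
  intro j _
  simp

theorem shift_sum (N m j : ℕ) (D : ℤ[X]) (hD : Flat N D) :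
    ∑ k ∈ Finset.range m, |(D * X ^ j).coeff k| ≤ (N : ℤ) := by
  have h : ∀ k ∈ Finset.range m, |(D * X ^ j).coeff k| ≤
      if k ∈ Finset.Ico j (j + N) then (1 : ℤ) else 0 := by
    intro k _
    rw [Polynomial.coeff_mul_X_pow']
    by_cases h1 : j ≤ k
    · rw [if_pos h1]
      by_cases h2 : k < j + N
      · rw [if_pos (Finset.mem_Ico.2 ⟨h1, h2⟩)]
        exact hD.2 _
      · have h3 : D.coeff (k - j) = 0 := by
          apply Polynomial.coeff_eq_zero_of_natDegree_lt
          have := hD.1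
          omega
        rw [h3, abs_zero]
        split_ifs <;> norm_num
    · rw [if_neg h1, abs_zero]
      split_ifs <;> norm_num
  refine (Finset.sum_le_sum h).trans ?_
  rw [← Finset.sum_filter, Finset.sum_const, nsmul_eq_mul, mul_one]
  have h2 : (Finset.filter (fun k => k ∈ Finset.Ico j (j + N)) (Finset.range m)).card ≤ N := by
    calc _ ≤ (Finset.Ico j (j + N)).card := by
          apply Finset.card_le_card
          intro k hk
          exact (Finset.mem_filter.1 hk).2
      _ = N := by rw [Nat.card_Ico]; omega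
  exact_mod_cast h2

theorem l1_mul (N m D₁ : ℕ) (D : ℤ[X]) (hD : Flat N D) (b : ℕ → ℤ) :
    ∑ k ∈ Finset.range m, |(D * pol D₁ b).coeff k| ≤
      N * ∑ j ∈ Finset.range (D₁ + 1), |b j| := by
  have e : ∀ k, (D * pol D₁ b).coeff k =
      ∑ j ∈ Finset.range (D₁ + 1), b j * (D * X ^ j).coeff k := by
    intro k
    unfold pol
    rw [Finset.mul_sum, Polynomial.finsetSum_coeff]
    apply Finset.sum_congr rfl
    intro j _
    rw [← mul_assoc, mul_comm D, mul_assoc, Polynomial.coeff_C_mul]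
  calc ∑ k ∈ Finset.range m, |(D * pol D₁ b).coeff k|
      ≤ ∑ k ∈ Finset.range m, ∑ j ∈ Finset.range (D₁ + 1), |b j| * |(D * X ^ j).coeff k| := by
        apply Finset.sum_le_sum
        intro k _
        rw [e]
        refine (Finset.abs_sum_le_sum_abs _ _).trans (le_of_eq ?_)
        apply Finset.sum_congr rfl
        intro j _
        exact abs_mul _ _
    _ = ∑ j ∈ Finset.range (D₁ + 1), |b j| * ∑ k ∈ Finset.range m, |(D * X ^ j).coeff k| := by
        rw [Finset.sum_comm]
        apply Finset.sum_congr rfl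
        intro j _
        rw [Finset.mul_sum]
    _ ≤ ∑ j ∈ Finset.range (D₁ + 1), |b j| * N := by
        apply Finset.sum_le_sum
        intro j _
        exact mul_le_mul_of_nonneg_left (shift_sum N m j D hD) (abs_nonneg _)
    _ = N * ∑ j ∈ Finset.range (D₁ + 1), |b j| := by
        rw [← Finset.sum_mul, mul_comm]

theorem weight_mul (N D₁ n₁ : ℕ) (hN : 1 ≤ N) (D : ℤ[X]) (hD : Flat N D) (b : ℕ → ℤ)
    (hb : weight D₁ b ≤ n₁) :
    weight (N + D₁) (fun k => (D * pol D₁ b).coeff k) ≤ 2 * N * n₁ := by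
  unfold weight at hb ⊢
  rw [Finset.sum_add_distrib, Finset.sum_const, Finset.card_range, nsmul_eq_mul, mul_one] at hb ⊢
  have h1 := l1_mul N (N + D₁ + 1) D₁ D hD b
  have hS : 0 ≤ ∑ j ∈ Finset.range (D₁ + 1), |b j| := Finset.sum_nonneg fun _ _ => abs_nonneg _
  have hN' : (1 : ℤ) ≤ N := by exact_mod_cast hN
  push_cast at hb ⊢
  set Sb := ∑ j ∈ Finset.range (D₁ + 1), |b j|
  have hD0 : (0 : ℤ) ≤ D₁ := Int.natCast_nonneg _
  have hn1 : (1 : ℤ) ≤ n₁ := by linarith
  nlinarith

theorem val_mul (θ : ℝ) (N D₁ : ℕ) (D : ℤ[X]) (hD : Flat N D) (b : ℕ → ℤ) :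
    val θ (N + D₁) (fun k => (D * pol D₁ b).coeff k) = ev D (zz θ) * val θ D₁ b := by
  rw [← ev_pol D₁ b, ← ev_mul]
  have hdeg : (D * pol D₁ b).natDegree < N + D₁ + 1 := by
    have h1 := Polynomial.natDegree_mul_le (p := D) (q := pol D₁ b)
    have h2 := pol_deg D₁ b
    have h3 := hD.1
    omega
  rw [ev_eq _ _ hdeg]
  rfl

theorem sN_succ {N : ℕ} (h : 1 ≤ Real.log N) : sN (N + 1) ≤ sN N + 1 := by
  unfold sN
  have hN : 1 ≤ N := by
    by_contra h0
    have : N = 0 := by omega
    subst this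
    norm_num at h
  have hN' : (1 : ℝ) ≤ N := by exact_mod_cast hN
  push_cast
  have h1 : Real.log N ≤ Real.log (N + 1) := Real.log_le_log (by linarith) (by linarith)
  have h2 : (Real.log N) ^ 6 ≤ (Real.log (N + 1)) ^ 6 := pow_le_pow_left₀ (by linarith) h1 6
  have h3 : 1 ≤ (Real.log N) ^ 6 := one_le_pow₀ h
  have h4 : 0 < (Real.log N) ^ 6 := by linarith
  calc ((N : ℝ) + 1) / (Real.log (N + 1)) ^ 6 ≤ (N + 1) / (Real.log N) ^ 6 :=
        div_le_div_of_nonneg_left (by linarith) h4 h2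
    _ = N / (Real.log N) ^ 6 + 1 / (Real.log N) ^ 6 := by ring
    _ ≤ N / (Real.log N) ^ 6 + 1 := by
        have : 1 / (Real.log N) ^ 6 ≤ 1 := by
          rw [div_le_one h4]
          exact h3
        linarith

theorem s_com : S_COM := by
  intro θ ⟨N₀, hN₀⟩ ⟨nc, hnc⟩
  -- the threshold of the flat polynomials
  obtain ⟨Nl, hNl⟩ := log_big 1
  set N₂ := max (max N₀ Nl) 3 with hN₂
  set f : ℕ → ℝ := fun N => sN N + Real.log (ΓN N) with hf
  obtain ⟨n₃, hn₃⟩ := big 1 16
  obtain ⟨n₄, hn₄⟩ := log_big (max (max (8 * 81 ^ 5) (nc + 1)) (max (|f N₂|) 2))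
  refine ⟨max (max n₃ n₄) (N₂ + 1), fun n hn => ?_⟩
  have hn3 := hn₃ n (by omega)
  have hn4 := hn₄ n (by omega)
  have hnN₂ : N₂ < n := by omega
  set l := Real.log n with hl
  have hl1 : (8 * 81 ^ 5 : ℝ) ≤ l := (le_max_left _ _).trans ((le_max_left _ _).trans hn4)
  have hl2 : (nc + 1 : ℝ) ≤ l := (le_max_right _ _).trans ((le_max_left _ _).trans hn4)
  have hl3 : |f N₂| ≤ l := (le_max_left _ _).trans ((le_max_right _ _).trans hn4)
  have hl0 : 1 ≤ l := by
    have : (1 : ℝ) ≤ 8 * 81 ^ 5 := by norm_num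
    linarith
  have hlp : 0 < l := by linarith
  intro r u hr hr1 hu
  have hr0 : 0 < r := (Real.exp_pos _).trans_le hr
  set lam := -Real.log r with hlam
  have hlam1 : lam ≤ n / l ^ 25 := by
    have := Real.log_le_log (Real.exp_pos _) hr
    rw [Real.log_exp] at this
    linarith
  have hrlam : r = Real.exp (-lam) := by rw [hlam, neg_neg, Real.exp_log hr0]
  -- the small weight
  set n₁ := ⌊l ^ 16⌋₊ with hn₁
  have hl16 : (1 : ℝ) ≤ l ^ 16 := one_le_pow₀ hl0
  have hn₁le : (n₁ : ℝ) ≤ l ^ 16 := Nat.floor_le (by linarith)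
  have hn₁ge : l ^ 16 / 2 ≤ n₁ := by
    have h1 := Nat.lt_floor_add_one (l ^ 16)
    rw [← hn₁] at h1
    have h2 : (2 : ℝ) ≤ l ^ 16 := by
      calc (2 : ℝ) ≤ l := by
            have : (2 : ℝ) ≤ 8 * 81 ^ 5 := by norm_num
            linarith
        _ = l ^ 1 := (pow_one l).symm
        _ ≤ l ^ 16 := pow_le_pow_right₀ hl0 (by norm_num)
    linarith
  have hn₁nc : nc ≤ n₁ := by
    apply Nat.le_floor
    calc (nc : ℝ) ≤ l := by linarith
      _ = l ^ 1 := (pow_one l).symm
      _ ≤ l ^ 16 := pow_le_pow_right₀ hl0 (by norm_num)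
  have hn₁n : n₁ ≤ n := by
    have : (n₁ : ℝ) ≤ n := by linarith
    exact_mod_cast this
  have hn₁p : (0 : ℝ) < n₁ := by linarith
  have hcov := hnc n₁ hn₁nc
  set Y : ℝ := (n₁ : ℝ) ^ (3 / 5 : ℝ) with hY
  have hY0 : 0 ≤ Y := Real.rpow_nonneg hn₁p.le _
  have hYbig : 81 * l ^ 9 ≤ Y := by
    have h5 : Y ^ 5 = (n₁ : ℝ) ^ 3 := by
      rw [hY, ← Real.rpow_natCast, ← Real.rpow_mul hn₁p.le]
      norm_num
    have h6 : (81 * l ^ 9) ^ 5 ≤ Y ^ 5 := by
      rw [h5]
      calc (81 * l ^ 9) ^ 5 = (8 * 81 ^ 5) * l ^ 45 / 8 := by ring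
        _ ≤ l * l ^ 45 / 8 := by gcongr
        _ ≤ l ^ 3 * l ^ 45 / 8 := by
            have : l ≤ l ^ 3 := by
              calc l = l ^ 1 := (pow_one l).symm
                _ ≤ l ^ 3 := pow_le_pow_right₀ hl0 (by norm_num)
            gcongr
        _ = (l ^ 16 / 2) ^ 3 := by ring
        _ ≤ (n₁ : ℝ) ^ 3 := by gcongr
    exact le_of_pow_le_pow_left₀ (by norm_num) hY0 h6
  rcases le_or_gt lam Y with hcase | hcase
  · -- directly
    obtain ⟨D, b, hw, hv⟩ := hcov r u (by rw [hrlam]; exact Real.exp_le_exp.2 (by linarith)) hr1 hu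
    exact ⟨D, b, hw.trans (by exact_mod_cast hn₁n), hv⟩
  · classical
    -- the largest `N`
    set T := (Finset.range (n + 1)).filter (fun N => N₂ ≤ N ∧ f N ≤ lam) with hT
    have hTne : T.Nonempty := by
      refine ⟨N₂, Finset.mem_filter.2 ⟨Finset.mem_range.2 (by omega), le_rfl, ?_⟩⟩
      have h1 : l ≤ l ^ 9 := by
        calc l = l ^ 1 := (pow_one l).symm
          _ ≤ l ^ 9 := pow_le_pow_right₀ hl0 (by norm_num)
      have h2 := le_abs_self (f N₂)
      have h3 : 0 ≤ l ^ 9 := by positivity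
      linarith
    obtain ⟨N, hNT, hNmax⟩ := T.exists_max_image (fun N => N) hTne
    obtain ⟨hNn, hN2, hfN⟩ := Finset.mem_filter.1 hNT
    rw [Finset.mem_range] at hNn
    have hN1 : 1 ≤ N := by omega
    have hNr : (1 : ℝ) ≤ N := by exact_mod_cast hN1
    have hlogN : 1 ≤ Real.log N := hNl N (by omega)
    have hΓ1 : ∀ M : ℕ, 1 ≤ M → 1 ≤ ΓN M := by
      intro M hM
      unfold ΓN
      exact one_le_pow₀ (by exact_mod_cast hM)
    have hsN : sN N ≤ lam := by
      have := Real.log_nonneg (hΓ1 N hN1)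
      have h2 : f N = sN N + Real.log (ΓN N) := rfl
      linarith
    have hnr : (1 : ℝ) ≤ n := by exact_mod_cast (by omega : 1 ≤ n)
    have hNlt : N < n := by
      by_contra hcon
      have : N = n := by omega
      rw [this] at hsN
      have h1 : (n : ℝ) / l ^ 25 < n / l ^ 6 := by
        apply div_lt_div_of_pos_left (by linarith) (by positivity)
        apply pow_lt_pow_right₀ _ (by norm_num)
        have : (1 : ℝ) < 8 * 81 ^ 5 := by norm_num
        linarith
      have h2 : sN n = n / l ^ 6 := rfl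
      linarith
    have hfN1 : lam < f (N + 1) := by
      by_contra hcon
      rw [not_lt] at hcon
      have : N + 1 ∈ T := Finset.mem_filter.2 ⟨Finset.mem_range.2 (by omega), by omega, hcon⟩
      have := hNmax _ this
      omega
    have hlogle : ∀ M : ℕ, 1 ≤ M → M ≤ n → Real.log M ≤ l := by
      intro M hM hMn
      exact Real.log_le_log (by exact_mod_cast hM) (by exact_mod_cast hMn)
    have hgap : lam - sN N ≤ Y := by
      have h1 := sN_succ hlogN
      have h2 : f (N + 1) = sN (N + 1) + Real.log (ΓN (N + 1)) := rfl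
      have h3 : Real.log (ΓN (N + 1)) ≤ 80 * l ^ 9 := by
        unfold ΓN
        rw [Real.log_pow]
        have h4 := hlogle (N + 1) (by omega) (by omega)
        have h5 : 1 ≤ Real.log ((N + 1 : ℕ) : ℝ) := hNl (N + 1) (by omega)
        have h6 := KN_le h5
        have h7 : (KN (N + 1) : ℝ) ≤ 2 * l ^ 8 := by
          refine h6.trans ?_
          have := pow_le_pow_left₀ (by linarith) h4 8
          linarith
        calc ((40 * KN (N + 1) : ℕ) : ℝ) * Real.log ((N + 1 : ℕ) : ℝ)
            ≤ (40 * (2 * l ^ 8)) * l := by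
              push_cast at h4 ⊢
              apply mul_le_mul _ h4 (by push_cast at h5; linarith) (by positivity)
              linarith
          _ = 80 * l ^ 9 := by ring
      have h8 : 1 ≤ l ^ 9 := one_le_pow₀ hl0
      linarith
    -- the flat polynomial
    have hng := hN₀ N (by omega)
    unfold GapN at hng
    push Not at hng
    obtain ⟨D, hDf, hDρ, hDΓ⟩ := hng
    set a := ‖ev D (zz θ)‖ with ha
    have hρ0 : 0 < ρN N := Real.exp_pos _
    have hΓ0 : 0 < ΓN N := by linarith [hΓ1 N hN1]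
    have ha0 : 0 < a := lt_trans (by positivity) hDΓ
    have hev0 : ev D (zz θ) ≠ 0 := norm_pos_iff.1 ha0
    have hra : r / a ≤ 1 := by
      rw [div_le_one ha0]
      refine le_trans ?_ hDΓ.le
      have h2 : f N = sN N + Real.log (ΓN N) := rfl
      calc r = Real.exp (-lam) := hrlam
        _ ≤ Real.exp (-sN N - Real.log (ΓN N)) := Real.exp_le_exp.2 (by linarith)
        _ = ρN N / ΓN N := by rw [Real.exp_sub, Real.exp_log hΓ0, ρN]
    have hra2 : Real.exp (-Y) ≤ r / a := by
      rw [le_div_iff₀ ha0]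
      calc Real.exp (-Y) * a ≤ Real.exp (-Y) * Real.exp (-sN N) :=
            mul_le_mul_of_nonneg_left hDρ (Real.exp_pos _).le
        _ = Real.exp (-Y + -sN N) := (Real.exp_add _ _).symm
        _ ≤ r := by
            rw [hrlam]
            exact Real.exp_le_exp.2 (by linarith)
    have hac : (a : ℂ) ≠ 0 := by exact_mod_cast ha0.ne'
    obtain ⟨D₁, b, hw, hv⟩ := hcov (r / a) (u / (ev D (zz θ) / a)) hra2 hra (by
      rw [norm_div, norm_div, hu, ← ha, Complex.norm_real, Real.norm_eq_abs, abs_of_pos ha0,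
        div_self ha0.ne', div_one])
    refine ⟨N + D₁, fun k => (D * pol D₁ b).coeff k, ?_, ?_⟩
    · refine (weight_mul N D₁ n₁ hN1 D hDf b hw).trans ?_
      have hNsmall : (N : ℝ) * l ^ 19 ≤ n := by
        have h1 : (N : ℝ) = sN N * (Real.log N) ^ 6 := by
          unfold sN
          have : (Real.log N) ^ 6 ≠ 0 := by positivity
          field_simp
        have h2 := hlogle N hN1 (by omega)
        have h3 : (Real.log N) ^ 6 ≤ l ^ 6 := pow_le_pow_left₀ (by linarith) h2 6
        have h4 : 0 ≤ sN N := by unfold sN; positivity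
        calc (N : ℝ) * l ^ 19 = sN N * (Real.log N) ^ 6 * l ^ 19 := by rw [← h1]
          _ ≤ (n / l ^ 25) * l ^ 6 * l ^ 19 := by
              apply mul_le_mul_of_nonneg_right _ (by positivity)
              apply mul_le_mul (hsN.trans hlam1) h3 (by positivity) (by positivity)
          _ = n := by field_simp
      have : (2 * N * n₁ : ℝ) ≤ n := by
        calc (2 * N * n₁ : ℝ) ≤ 2 * N * l ^ 16 := by
              apply mul_le_mul_of_nonneg_left hn₁le (by positivity)
          _ ≤ (l ^ 3) * N * l ^ 16 := by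
              have h2l : (2 : ℝ) ≤ l ^ 3 := by
                calc (2 : ℝ) ≤ l := by
                      have : (2 : ℝ) ≤ 8 * 81 ^ 5 := by norm_num
                      linarith
                  _ = l ^ 1 := (pow_one l).symm
                  _ ≤ l ^ 3 := pow_le_pow_right₀ hl0 (by norm_num)
              gcongr
          _ = N * l ^ 19 := by ring
          _ ≤ n := hNsmall
      exact_mod_cast this
    · rw [val_mul θ N D₁ D hDf b]
      have e1 : ev D (zz θ) * val θ D₁ b - r * u =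
          ev D (zz θ) * (val θ D₁ b - ((r / a : ℝ) : ℂ) * (u / (ev D (zz θ) / a))) := by
        push_cast
        field_simp
      rw [e1, norm_mul, ← ha]
      calc a * ‖val θ D₁ b - ((r / a : ℝ) : ℂ) * (u / (ev D (zz θ) / a))‖ ≤ a * (r / a / 50) :=
            mul_le_mul_of_nonneg_left hv ha0.le
        _ = r / 50 := by field_simp

end Pool.Agent.L7h33.DQ
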