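import Pool.Agent.L7h33.DQ.Asy

/-!
# Project DQ: FIN
-/

set_option autoImplicit false

namespace Pool.Agent.L7h33.DQ

open Polynomial MeasureTheory Pool.Agent.K7.H54.DP Filter

/-- from `t` in `[0, 1)` to `θ = 2 π t` -/
theorem ae_scale (P : ℝ → Prop)
    (h : ∀ᵐ t ∂(volume.restrict (Set.Ico (0 : ℝ) 1)), P (2 * Real.pi * t)) :
    ∀ᵐ θ ∂(volume.restrict (Set.Ico (0 : ℝ) (2 * Real.pi))), P θ := by
  have hpi : 0 < 2 * Real.pi := Real.two_pi_pos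
  rw [ae_restrict_iff' measurableSet_Ico] at h ⊢
  rw [ae_iff] at h ⊢
  have e : {θ : ℝ | ¬(θ ∈ Set.Ico (0 : ℝ) (2 * Real.pi) → P θ)} =
      (fun θ => (2 * Real.pi)⁻¹ * θ) ⁻¹'
        {t : ℝ | ¬(t ∈ Set.Ico (0 : ℝ) 1 → P (2 * Real.pi * t))} := by
    ext θ
    simp only [Set.mem_preimage]
    show ¬(θ ∈ Set.Ico (0 : ℝ) (2 * Real.pi) → P θ) ↔
      ¬((2 * Real.pi)⁻¹ * θ ∈ Set.Ico (0 : ℝ) 1 → P (2 * Real.pi * ((2 * Real.pi)⁻¹ * θ)))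
    have e1 : 2 * Real.pi * ((2 * Real.pi)⁻¹ * θ) = θ := by field_simp
    rw [e1]
    have e2 : (2 * Real.pi)⁻¹ * θ ∈ Set.Ico (0 : ℝ) 1 ↔ θ ∈ Set.Ico (0 : ℝ) (2 * Real.pi) := by
      rw [Set.mem_Ico, Set.mem_Ico, inv_mul_lt_iff₀ hpi, mul_one]
      constructor
      · rintro ⟨h1, h2⟩
        refine ⟨?_, h2⟩
        have := mul_nonneg hpi.le h1
        rwa [e1] at this
      · rintro ⟨h1, h2⟩
        exact ⟨by positivity, h2⟩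
    rw [e2]
  rw [e, Real.volume_preimage_mul_left (by positivity), h, mul_zero]

theorem cover_of_coverY (θ : ℝ) (n : ℕ) (hn : 2 ≤ n) (h : CoverY θ (n / (Real.log n) ^ 25) n) :
    ∃ c : ℝ, (n : ℝ) ^ c = n / (Real.log n) ^ 25 ∧ Cover θ c n := by
  have hn' : (2 : ℝ) ≤ n := by exact_mod_cast hn
  have hlog : 0 < Real.log n := Real.log_pos (by linarith)
  have hpos : 0 < (n : ℝ) / (Real.log n) ^ 25 := by positivity
  have e : (n : ℝ) ^ (Real.log (n / (Real.log n) ^ 25) / Real.log n) = n / (Real.log n) ^ 25 := by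
    rw [Real.rpow_def_of_pos (by linarith), mul_div_cancel₀ _ hlog.ne', Real.exp_log hpos]
  refine ⟨_, e, ?_⟩
  unfold Cover
  rw [e]
  exact h

theorem s_fin (hAEG : S_AEG) (hCOM : S_COM) (hA : StAET) (hC : StCoverT) (hD : StDpv)
    (hI : StIrr) : S_FIN := by
  have h0 : ∀ᵐ θ ∂(volume.restrict (Set.Ico (0 : ℝ) (2 * Real.pi))),
      ∃ N₀ : ℕ, ∀ N : ℕ, N₀ ≤ N → ¬ GapN (zz θ) N (ρN N) (ΓN N) :=
    ae_scale (fun θ => ∃ N₀ : ℕ, ∀ N : ℕ, N₀ ≤ N → ¬ GapN (zz θ) N (ρN N) (ΓN N)) hAEG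
  have h1 : ∀ᵐ θ ∂(volume.restrict (Set.Ico (0 : ℝ) (2 * Real.pi))),
      ∃ C : ℝ, 1 ≤ C ∧ Good2 (zz θ) 150 (1 / 252) C :=
    ae_mono (Measure.restrict_mono Set.Ico_subset_Icc_self le_rfl)
      (hA 150 (1 / 252) (by positivity))
  have h2 : ∀ᵐ θ ∂(volume.restrict (Set.Ico (0 : ℝ) (2 * Real.pi))),
      ∀ k : ℕ, 1 ≤ k → zz θ ^ k ≠ 1 := ae_restrict_of_ae hI
  filter_upwards [h0, h1, h2] with θ k0 ⟨C, hC1, hG⟩ k2
  obtain ⟨nc, hnc⟩ := hC θ (1 / 252) C k2 (by norm_num) hC1 hG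
  have e : (1 / (3 / 2 + 42 * (1 / 252)) : ℝ) = 3 / 5 := by norm_num
  rw [e] at hnc
  obtain ⟨n₀, hn₀⟩ := hCOM θ k0 ⟨nc, hnc⟩
  refine ⟨max n₀ 2, fun n hn => ?_⟩
  obtain ⟨c, hc, hcov⟩ := cover_of_coverY θ n (by omega) (hn₀ n (by omega))
  have h5 := hD θ c n hcov
  rw [hc] at h5
  exact ⟨h5, le_sSup ⟨_, Real.exp_pos _, h5, rfl⟩⟩

end Pool.Agent.L7h33.DQ
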