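import Pool.Agent.L7h33.DQ.Asy
import Pool.Agent.L7h33.DQ.Loc

/-!
# Project DQ: MEA
-/

set_option autoImplicit false

namespace Pool.Agent.L7h33.DQ

open Polynomial MeasureTheory Pool.Agent.K7.H54.DP Filter

theorem count_poly : Countable ℤ[X] := by
  rw [← Cardinal.mk_le_aleph0_iff]
  refine (Polynomial.cardinalMk_le_max (R := ℤ)).trans ?_
  rw [Cardinal.mk_eq_aleph0, max_self]

theorem pt_cont : Continuous pt := by
  unfold pt zz
  fun_prop

theorem ev_cont (D : ℤ[X]) : Continuous fun x : ℂ => ev D x := by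
  unfold ev
  exact Polynomial.continuous _

theorem meas_E (c ρ Γ : ℝ) (N : ℕ) :
    MeasurableSet {t : ℝ | t ∈ Set.Ico (0 : ℝ) 1 ∧ Dio c (pt t) ∧ GapN (pt t) N ρ Γ} := by
  apply MeasurableSet.inter measurableSet_Ico
  apply MeasurableSet.inter
  · show MeasurableSet {t : ℝ | ∀ d : ℕ, 1 ≤ d → c / (d : ℝ) ^ 2 ≤ ‖pt t ^ d - 1‖}
    rw [Set.ofPred_forall]
    apply MeasurableSet.iInter
    intro d
    rw [Set.ofPred_forall]
    apply MeasurableSet.iInter
    intro _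
    apply measurableSet_le measurable_const
    have := pt_cont
    fun_prop
  · show MeasurableSet {t : ℝ | ∀ D : ℤ[X], Flat N D → ‖ev D (pt t)‖ ≤ ρ → ‖ev D (pt t)‖ ≤ ρ / Γ}
    rw [Set.ofPred_forall]
    haveI := count_poly
    apply MeasurableSet.iInter
    intro D
    have hc : Continuous fun t : ℝ => ‖ev D (pt t)‖ := ((ev_cont D).comp pt_cont).norm
    by_cases hD : Flat N D
    · have e : {t : ℝ | Flat N D → ‖ev D (pt t)‖ ≤ ρ → ‖ev D (pt t)‖ ≤ ρ / Γ} =
          {t : ℝ | ‖ev D (pt t)‖ ≤ ρ}ᶜ ∪ {t : ℝ | ‖ev D (pt t)‖ ≤ ρ / Γ} := by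
        ext t
        simp only [Set.mem_setOf_eq, Set.mem_union, Set.mem_compl_iff]
        constructor
        · intro h
          by_cases h1 : ‖ev D (pt t)‖ ≤ ρ
          · exact Or.inr (h hD h1)
          · exact Or.inl h1
        · rintro (h | h) _ h2
          · exact absurd h2 h
          · exact h
      rw [e]
      exact (measurableSet_le hc.measurable measurable_const).compl.union
        (measurableSet_le hc.measurable measurable_const)
    · have e : {t : ℝ | Flat N D → ‖ev D (pt t)‖ ≤ ρ → ‖ev D (pt t)‖ ≤ ρ / Γ} = Set.univ := by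
        ext t
        simp [hD]
      rw [e]
      exact MeasurableSet.univ

/-- the step at one point -/
theorem mea_point (hBAS : S_BAS) (hMMB : S_MMB) (hDET : S_DET) (hGCD : StGcd)
    (N : ℕ) (z : ℂ) (hz : ‖z‖ = 1) (r : ℝ) (hr : 0 < r) (hrN : r ≤ 1 / (N : ℝ) ^ 10)
    (hN23 : 23 ≤ N) (hL : 10 ≤ Real.log N) (hK1 : 1 ≤ KN N)
    (hs1 : 2 + 12 * (KN N : ℝ) * Real.log N ≤ sN N / 8) (hs2 : 100 * Real.log N ≤ sN N)
    (hs3 : 8 * sN N ≤ N) (hlog : Real.log (N + 1) ≤ 2 * Real.log N)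
    (hK : 2 * N * Real.log (2 * N) < sN N / 2 * KN N)
    (hrK : 1 / r ^ (KN N) ≤ (N : ℝ) ^ (12 * KN N) * Real.exp (sN N / 8))
    (hlow : ∀ G D : ℤ[X], D ≠ 0 → Flat N D → G ∣ D → (G.natDegree : ℝ) ≤ 4 * sN N →
      MM G ≤ Real.exp (8 / (Real.log N) ^ 5) → ∀ x : ℂ, ‖x - z‖ ≤ 1 / (N : ℝ) ^ 10 →
      Real.exp (-(sN N / 4)) ≤ ‖ev G x‖)
    (hsm : ∀ D ∈ Sm z N (ρN N), ∀ x : ℂ, ‖x - z‖ ≤ r → ‖ev D x‖ ≤ ρN N) : False := by
  have hNr : (23 : ℝ) ≤ N := by exact_mod_cast hN23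
  have hN0 : (0 : ℝ) < N := by linarith
  set L := Real.log N with hLd
  set s := sN N with hsd
  have hL0 : 0 < L := by linarith
  have hs0 : 0 < s := by linarith
  have hρ0 : 0 < ρN N := Real.exp_pos _
  have hρ1 : ρN N ≤ 1 := by
    unfold ρN
    rw [Real.exp_le_one_iff, ← hsd]
    linarith
  obtain ⟨F, hFN, hFc, hF⟩ := hBAS z N (ρN N) hz (by omega) hρ0 hρ1
  have hFs : (F.card : ℝ) ≤ 4 * s := by
    have h1 := Real.log_le_log (by positivity) hFc
    rw [Real.log_pow, Real.log_pow, Real.log_div (by positivity) hρ0.ne', ρN, Real.log_exp,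
      Real.log_mul (by norm_num) hN0.ne', ← hLd, ← hsd] at h1
    have h8 : Real.log 8 ≤ 7 := by
      have := Real.log_le_sub_one_of_pos (show (0 : ℝ) < 8 by norm_num)
      linarith
    have h2 := Real.log_two_gt_d9
    push_cast at h1
    have hc0 : (0 : ℝ) ≤ F.card := Nat.cast_nonneg _
    nlinarith
  have hF2 : 2 * F.card ≤ N := by
    have : (2 * F.card : ℝ) ≤ N := by linarith
    exact_mod_cast this
  choose! b hbSm hbmon hbdeg hbz using hF
  -- nonempty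
  obtain ⟨k₀, hk₀⟩ : (Finset.range N \ F).Nonempty := by
    rw [← Finset.card_pos]
    have := Finset.card_sdiff_of_subset hFN
    rw [this, Finset.card_range]
    omega
  have hb0 : b k₀ ≠ 0 := (hbmon k₀ hk₀).ne_zero
  obtain ⟨G, hG0, hGdvd, hGspan⟩ := hGCD (Sm z N (ρN N)) N ⟨b k₀, hbSm k₀ hk₀, hb0⟩
    (fun P hP => hP.1.1.le)
  -- make it monic
  obtain ⟨G', hG'm, hG'dvd, hG'span⟩ : ∃ G' : ℤ[X], G'.Monic ∧ (∀ P ∈ Sm z N (ρN N), G' ∣ P) ∧
      G'.map (Int.castRingHom ℝ) ∈ Submodule.span ℝ (Mult (Sm z N (ρN N)) N) := by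
    obtain ⟨u, hu⟩ := hGdvd _ (hbSm k₀ hk₀)
    have hlc : G.leadingCoeff * u.leadingCoeff = 1 := by
      rw [← Polynomial.leadingCoeff_mul, ← hu]
      exact hbmon k₀ hk₀
    rcases Int.isUnit_iff.1 (IsUnit.of_mul_eq_one _ hlc) with h | h
    · exact ⟨G, h, hGdvd, hGspan⟩
    · refine ⟨-G, ?_, fun P hP => (neg_dvd).2 (hGdvd P hP), ?_⟩
      · rw [Polynomial.Monic, Polynomial.leadingCoeff_neg, h]
        norm_num
      · rw [Polynomial.map_neg]
        exact Submodule.neg_mem _ hGspan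
  obtain ⟨hMM, hdeg⟩ := hMMB N F b G' (by omega) hFN hF2
    (fun k hk => ⟨hbmon k hk, hbdeg k hk, fun j => by
      exact_mod_cast (hbSm k hk).1.2 j, hbz k hk⟩) (fun k hk => hG'dvd _ (hbSm k hk))
  have hdeg' : (G'.natDegree : ℝ) ≤ 4 * s := by
    have : (G'.natDegree : ℝ) ≤ F.card := by exact_mod_cast hdeg
    linarith
  have hMM' : MM G' ≤ Real.exp (8 / L ^ 5) := by
    refine hMM.trans (Real.exp_le_exp.2 ?_)
    rw [div_le_div_iff₀ hN0 (by positivity)]
    have hs6 : s * L ^ 6 = N := by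
      rw [hsd, sN, ← hLd]
      field_simp
    calc (F.card : ℝ) * Real.log (N + 1) * L ^ 5 ≤ 4 * s * (2 * L) * L ^ 5 := by
          apply mul_le_mul_of_nonneg_right _ (by positivity)
          apply mul_le_mul hFs hlog (Real.log_nonneg (by linarith)) (by positivity)
      _ = 8 * (s * L ^ 6) := by ring
      _ = 8 * N := by rw [hs6]
  have hlow' : ∀ x : ℂ, ‖x - z‖ ≤ r → Real.exp (-(s / 4)) ≤ ‖ev G' x‖ := fun x hx =>
    hlow G' (b k₀) hb0 (hbSm k₀ hk₀).1 (hG'dvd _ (hbSm k₀ hk₀)) hdeg' hMM' x (hx.trans hrN)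
  set β : ℝ := Real.exp (-(3 * s / 4)) with hβ
  have hβ0 : 0 < β := Real.exp_pos _
  have hr1 : r ≤ 1 / N := by
    refine hrN.trans ?_
    rw [div_le_div_iff₀ (by positivity) hN0]
    have : (N : ℝ) ^ 1 ≤ (N : ℝ) ^ 10 := pow_le_pow_right₀ (by linarith) (by norm_num)
    linarith
  have hτ : 3 * β / r ^ (KN N) ≤ Real.exp (-(s / 2)) := by
    calc 3 * β / r ^ (KN N) = 3 * β * (1 / r ^ (KN N)) := by ring
      _ ≤ 3 * β * ((N : ℝ) ^ (12 * KN N) * Real.exp (s / 8)) := by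
          apply mul_le_mul_of_nonneg_left hrK (by positivity)
      _ ≤ (Real.exp 2) * β * (Real.exp (12 * (KN N : ℝ) * L) * Real.exp (s / 8)) := by
          have h3 : (3 : ℝ) ≤ Real.exp 2 := by
            have := Real.add_one_le_exp (2 : ℝ)
            linarith
          have h4 : (N : ℝ) ^ (12 * KN N) = Real.exp (12 * (KN N : ℝ) * L) := by
            rw [hLd, ← Real.rpow_natCast, Real.rpow_def_of_pos hN0]
            congr 1
            push_cast
            ring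
          rw [h4]
          gcongr
      _ = Real.exp (2 + -(3 * s / 4) + (12 * (KN N : ℝ) * L + s / 8)) := by
          rw [hβ, Real.exp_add, Real.exp_add, Real.exp_add]
      _ ≤ Real.exp (-(s / 2)) := by
          apply Real.exp_le_exp.2
          linarith
  have h2N : (2 * (N : ℝ)) = Real.exp (Real.log (2 * N)) := by
    rw [Real.exp_log (by positivity)]
  have hlog2N : Real.log (2 * N) ≤ L + 1 := by
    rw [Real.log_mul (by norm_num) (by positivity), ← hLd]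
    have := Real.log_two_lt_d9
    linarith
  refine hDET N (KN N) z r β (Sm z N (ρN N)) G' N (by omega) hK1 hr hr1 hβ0.le hz
    (fun P hP => hP.1) ⟨b k₀, hbSm k₀ hk₀, hb0⟩ hG'dvd hG'm hG'span ?_ ?_ ?_ ?_
  · intro x hx h0
    have := hlow' x hx
    rw [h0, norm_zero] at this
    linarith [Real.exp_pos (-(s / 4))]
  · intro P hP x hx
    refine (hsm P hP x hx).trans ?_
    calc ρN N = β * Real.exp (-(s / 4)) := by
          rw [hβ, ← Real.exp_add, ρN, ← hsd]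
          congr 1
          ring
      _ ≤ β * ‖ev G' x‖ := mul_le_mul_of_nonneg_left (hlow' x hx) hβ0.le
  · calc 3 * β / r ^ (KN N) * (2 * N) ≤ Real.exp (-(s / 2)) * (2 * N) := by
          apply mul_le_mul_of_nonneg_right hτ (by positivity)
      _ = Real.exp (-(s / 2) + Real.log (2 * N)) := by
          rw [Real.exp_add, ← h2N]
      _ < 1 := by
          rw [Real.exp_lt_one_iff]
          linarith
  · calc (3 * β / r ^ (KN N)) ^ (KN N) * (2 * (N : ℝ)) ^ (2 * N)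
        ≤ (Real.exp (-(s / 2))) ^ (KN N) * (2 * (N : ℝ)) ^ (2 * N) := by
          apply mul_le_mul_of_nonneg_right _ (by positivity)
          apply pow_le_pow_left₀ (by positivity) hτ
      _ = Real.exp (-(s / 2 * KN N) + 2 * N * Real.log (2 * N)) := by
          rw [Real.exp_add, ← Real.exp_nat_mul]
          congr 1
          · congr 1
            ring
          · conv_lhs => rw [h2N, ← Real.exp_nat_mul]
            congr 1
            push_cast
            ring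
      _ < 1 := by
          rw [Real.exp_lt_one_iff]
          linarith

theorem s_mea (hDYA : S_DYA) (hLOC : S_LOC) (hBAS : S_BAS) (hMMB : S_MMB) (hLOW : S_LOW)
    (hDET : S_DET) (hGCD : StGcd) : S_MEA := by
  intro c hc
  obtain ⟨N₁, h₁⟩ := asym
  obtain ⟨N₂, h₂⟩ := hLOW c hc
  refine ⟨max N₁ N₂, fun N hN => ?_⟩
  obtain ⟨hN23, hL, h144, hK1, hs1, hs2, hs3, hlog, hK⟩ := h₁ N (by omega)
  have hlow := h₂ N (by omega)
  by_contra hcon
  rw [not_le] at hcon
  set E := {t : ℝ | t ∈ Set.Ico (0 : ℝ) 1 ∧ Dio c (pt t) ∧ GapN (pt t) N (ρN N) (ΓN N)} with hE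
  have hNr : (23 : ℝ) ≤ N := by exact_mod_cast hN23
  have hN0 : (0 : ℝ) < N := by linarith
  have hs0 : 0 < sN N := by linarith
  have hKr : (1 : ℝ) ≤ KN N := by exact_mod_cast hK1
  -- the choice of the scale
  set k := 8 * KN N with hk
  have hk1 : 1 ≤ k := by omega
  have hkr : (k : ℝ) = 8 * KN N := by rw [hk]; push_cast; ring
  set y : ℝ := (N : ℝ) ^ 12 * Real.exp (sN N / k) with hy
  have hy1 : 1 ≤ y := by
    have a1 : 1 ≤ (N : ℝ) ^ 12 := one_le_pow₀ (by linarith)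
    have a2 : 1 ≤ Real.exp (sN N / k) := Real.one_le_exp (by positivity)
    nlinarith
  obtain ⟨n, hn1, hn2⟩ := exists_nat_pow_near hy1 (one_lt_two : (1 : ℝ) < 2)
  set m₀ := n + 1 with hm₀
  have hlo : y ≤ 2 ^ m₀ := hn2.le
  have hhi : (2 : ℝ) ^ m₀ ≤ 2 * y := by
    rw [hm₀, pow_succ]
    linarith
  have hNy : (N : ℝ) ^ 12 ≤ y := by
    have a1 : 0 ≤ (N : ℝ) ^ 12 := by positivity
    have a2 : 1 ≤ Real.exp (sN N / k) := Real.one_le_exp (by positivity)
    nlinarith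
  have hN12 : (N : ℝ) ^ 12 ≤ 2 ^ m₀ := hNy.trans hlo
  -- the finest scale
  obtain ⟨M₁, hM₁⟩ := pow_unbounded_of_one_lt (100 * (N : ℝ) ^ 2 / ρN N) (one_lt_two : (1 : ℝ) < 2)
  set M := max m₀ M₁ with hM
  have hρ0 : 0 < ρN N := Real.exp_pos _
  have hMρ : 100 * (N : ℝ) ^ 2 ≤ ρN N * 2 ^ M := by
    rw [div_lt_iff₀ hρ0] at hM₁
    have : (2 : ℝ) ^ M₁ ≤ 2 ^ M := pow_le_pow_right₀ (by norm_num) (le_max_right _ _)
    nlinarith
  -- density
  have hη : (0 : ℝ) < 1 / (N : ℝ) ^ 3 := by positivity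
  have hvol : ENNReal.ofReal (1 / (N : ℝ) ^ 3) < volume E := by
    refine lt_of_le_of_lt (ENNReal.ofReal_le_ofReal ?_) hcon
    apply one_div_le_one_div_of_le (by positivity)
    exact pow_le_pow_right₀ (by linarith) (by norm_num)
  obtain ⟨t, htE, hdens⟩ := hDYA E M (1 / (N : ℝ) ^ 3) (meas_E c _ _ N) (fun t ht => ht.1) hη hvol
  have hΓ : 2 ≤ ΓN N := by
    unfold ΓN
    calc (2 : ℝ) ≤ (N : ℝ) ^ 1 := by rw [pow_one]; linarith
      _ ≤ (N : ℝ) ^ (40 * KN N) := pow_le_pow_right₀ (by linarith) (by omega)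
  have h16 : 16 * (N : ℝ) ≤ 2 ^ m₀ := by
    refine le_trans ?_ hN12
    calc 16 * (N : ℝ) ≤ N * N := by nlinarith
      _ = (N : ℝ) ^ 2 := by ring
      _ ≤ (N : ℝ) ^ 12 := pow_le_pow_right₀ (by linarith) (by norm_num)
  have hA : (23 / (2 : ℝ) ^ m₀) ^ k * (4 * (N : ℝ) ^ (k + 1)) ≤ ρN N / 2 := by
    have hyp : 0 < y := by linarith
    have e1 : (23 / (2 : ℝ) ^ m₀) ^ k ≤ (23 / y) ^ k := by
      apply pow_le_pow_left₀ (by positivity)
      exact div_le_div_of_nonneg_left (by norm_num) hyp hlo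
    have e2 : (23 / y) ^ k = 23 ^ k / (N : ℝ) ^ (12 * k) * ρN N := by
      rw [div_pow, hy, mul_pow, ← Real.exp_nat_mul, ← pow_mul]
      have e3 : (k : ℝ) * (sN N / k) = sN N := by
        have : (k : ℝ) ≠ 0 := by positivity
        field_simp
      rw [e3, ρN, Real.exp_neg]
      field_simp
    have e4 : (23 : ℝ) ^ k ≤ (N : ℝ) ^ k := pow_le_pow_left₀ (by norm_num) hNr k
    have e5 : 8 * ((N : ℝ) ^ k * (N : ℝ) ^ (k + 1)) ≤ (N : ℝ) ^ (12 * k) := by
      calc 8 * ((N : ℝ) ^ k * (N : ℝ) ^ (k + 1)) ≤ N * ((N : ℝ) ^ k * (N : ℝ) ^ (k + 1)) := by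
            apply mul_le_mul_of_nonneg_right (by linarith) (by positivity)
        _ = (N : ℝ) ^ (2 * k + 2) := by ring
        _ ≤ (N : ℝ) ^ (12 * k) := pow_le_pow_right₀ (by linarith) (by omega)
    have hNk : 0 < (N : ℝ) ^ (12 * k) := by positivity
    calc (23 / (2 : ℝ) ^ m₀) ^ k * (4 * (N : ℝ) ^ (k + 1))
        ≤ 23 ^ k / (N : ℝ) ^ (12 * k) * ρN N * (4 * (N : ℝ) ^ (k + 1)) := by
          rw [← e2]
          exact mul_le_mul_of_nonneg_right e1 (by positivity)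
      _ ≤ (N : ℝ) ^ k / (N : ℝ) ^ (12 * k) * ρN N * (4 * (N : ℝ) ^ (k + 1)) := by
          gcongr
      _ = (8 * ((N : ℝ) ^ k * (N : ℝ) ^ (k + 1))) / (N : ℝ) ^ (12 * k) * (ρN N / 2) := by ring
      _ ≤ 1 * (ρN N / 2) := by
          apply mul_le_mul_of_nonneg_right _ (by positivity)
          rw [div_le_one hNk]
          exact e5
      _ = ρN N / 2 := one_mul _
  have h144r : (18 * k : ℝ) ≤ N := by
    rw [hkr]
    have : (144 * KN N : ℝ) ≤ N := by exact_mod_cast h144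
    linarith
  have hB : k * (18 * k / (1 / (N : ℝ) ^ 3)) ^ (k - 1) * 2 ≤ ΓN N := by
    have e1 : 18 * k / (1 / (N : ℝ) ^ 3) ≤ (N : ℝ) ^ 4 := by
      rw [div_div_eq_mul_div, div_one]
      calc (18 * k : ℝ) * (N : ℝ) ^ 3 ≤ N * (N : ℝ) ^ 3 :=
            mul_le_mul_of_nonneg_right h144r (by positivity)
        _ = (N : ℝ) ^ 4 := by ring
    have e2 : (18 * k / (1 / (N : ℝ) ^ 3)) ^ (k - 1) ≤ ((N : ℝ) ^ 4) ^ (k - 1) :=
      pow_le_pow_left₀ (by positivity) e1 _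
    have e3 : (2 * k : ℝ) ≤ N := by
      have : (0 : ℝ) ≤ k := by positivity
      linarith
    calc (k : ℝ) * (18 * k / (1 / (N : ℝ) ^ 3)) ^ (k - 1) * 2
        ≤ k * ((N : ℝ) ^ 4) ^ (k - 1) * 2 := by gcongr
      _ = 2 * k * (N : ℝ) ^ (4 * (k - 1)) := by rw [← pow_mul]; ring
      _ ≤ N * (N : ℝ) ^ (4 * (k - 1)) := mul_le_mul_of_nonneg_right e3 (by positivity)
      _ = (N : ℝ) ^ (4 * (k - 1) + 1) := by ring
      _ ≤ (N : ℝ) ^ (40 * KN N) := pow_le_pow_right₀ (by linarith) (by omega)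
      _ = ΓN N := rfl
  have hsm := hLOC N k M m₀ (ρN N) (ΓN N) (1 / (N : ℝ) ^ 3) E t (by omega) hk1 hρ0 hΓ hη
    (fun t' ht' => ht'.2.2) htE hdens (le_max_left _ _) h16 hA hB hMρ
  have h2m : (0 : ℝ) < 2 ^ m₀ := by positivity
  refine mea_point hBAS hMMB hDET hGCD N (pt t) (pt_norm t) (16 / 2 ^ m₀) (by positivity) ?_ hN23 hL
    hK1 hs1 hs2 hs3 hlog hK ?_ (hlow (pt t) (pt_norm t) htE.2.1) hsm
  · rw [div_le_div_iff₀ h2m (by positivity)]
    calc 16 * (N : ℝ) ^ 10 ≤ N * (N : ℝ) ^ 10 := by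
          apply mul_le_mul_of_nonneg_right (by linarith) (by positivity)
      _ = (N : ℝ) ^ 11 := by ring
      _ ≤ (N : ℝ) ^ 12 := pow_le_pow_right₀ (by linarith) (by norm_num)
      _ ≤ 1 * 2 ^ m₀ := by rw [one_mul]; exact hN12
  · rw [div_pow, one_div_div]
    have hyp : 0 < y := by linarith
    calc ((2 : ℝ) ^ m₀) ^ KN N / 16 ^ KN N = (2 ^ m₀ / 16) ^ KN N := by rw [div_pow]
      _ ≤ y ^ KN N := by
          apply pow_le_pow_left₀ (by positivity)
          rw [div_le_iff₀ (by norm_num)]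
          linarith
      _ = (N : ℝ) ^ (12 * KN N) * Real.exp (sN N / 8) := by
          rw [hy, mul_pow, ← pow_mul, ← Real.exp_nat_mul, hkr]
          congr 2
          have : (KN N : ℝ) ≠ 0 := by positivity
          field_simp

end Pool.Agent.L7h33.DQ
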