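import Pool.Agent.K7.H54.DP.Stm2

/-!
# Project DQ (MP_4c4335_nt): values of flat integer polynomials at almost every point of the circle

Definitions and statements of the parts.  `ev`, `MM`, `zz`, `Mult`, `Cover`, `DPV`, `RDPV` are those
of `Pool/Agent/K7/H54/DP/Stm.lean`.
-/

set_option autoImplicit false

namespace Pool.Agent.L7h33.DQ

open Polynomial MeasureTheory Pool.Agent.K7.H54.DP

/-- coefficients in `{-1, 0, 1}` and degree `< N` -/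
def Flat (N : ℕ) (D : ℤ[X]) : Prop := D.natDegree < N ∧ ∀ i, |D.coeff i| ≤ 1

/-- the flat polynomials which are small at `z` -/
def Sm (z : ℂ) (N : ℕ) (ρ : ℝ) : Set ℤ[X] := {D | Flat N D ∧ ‖ev D z‖ ≤ ρ}

/-- no value of a flat polynomial at `z` has its modulus between `ρ / Γ` and `ρ` -/
def GapN (z : ℂ) (N : ℕ) (ρ Γ : ℝ) : Prop :=
  ∀ D : ℤ[X], Flat N D → ‖ev D z‖ ≤ ρ → ‖ev D z‖ ≤ ρ / Γ

/-- the point `exp (2 π i t)` -/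
noncomputable def pt (t : ℝ) : ℂ := zz (2 * Real.pi * t)

/-- the dyadic interval of length `2 ^ (-m)` which contains `t` -/
noncomputable def J (m : ℕ) (t : ℝ) : Set ℝ :=
  Set.Ico ((⌊(2 : ℝ) ^ m * t⌋ : ℝ) / 2 ^ m) (((⌊(2 : ℝ) ^ m * t⌋ : ℝ) + 1) / 2 ^ m)

/-- `z` is not near the roots of unity -/
def Dio (c : ℝ) (z : ℂ) : Prop := ∀ d : ℕ, 1 ≤ d → c / (d : ℝ) ^ 2 ≤ ‖z ^ d - 1‖

/-! ### The parameters -/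

noncomputable def sN (N : ℕ) : ℝ := N / (Real.log N) ^ 6
noncomputable def KN (N : ℕ) : ℕ := ⌈(Real.log N) ^ 8⌉₊
noncomputable def ρN (N : ℕ) : ℝ := Real.exp (-sN N)
noncomputable def ΓN (N : ℕ) : ℝ := (N : ℝ) ^ (40 * KN N)

/-! ### Measure theory -/

/-- DYA: a set of measure `> η` has a point near which it has density `≥ η` at all dyadic scales.
(For every `t ∈ E` without this property take the largest bad interval `J m t`; finitely many disjoint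
intervals, and `E` has density `< η` in each.) -/
def S_DYA : Prop := ∀ (E : Set ℝ) (M : ℕ) (η : ℝ), MeasurableSet E → E ⊆ Set.Ico 0 1 → 0 < η →
  ENNReal.ofReal η < volume E →
  ∃ t ∈ E, ∀ m ≤ M, ENNReal.ofReal (η / 2 ^ m) ≤ volume (E ∩ J m t)

/-- PTS: separated points in a set of positive measure. (Cut the line in intervals of length `κ`; `E`
meets at least `3 k` of them, take `k` indices of the same parity.) -/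
def S_PTS : Prop := ∀ (E : Set ℝ) (κ : ℝ) (k : ℕ), 0 < κ → 1 ≤ k →
  ENNReal.ofReal (3 * k * κ) ≤ volume E →
  ∃ x : Fin k → ℝ, (∀ i, x i ∈ E) ∧ ∀ i j, i ≠ j → κ ≤ |x i - x j|

/-- DIO: Borel-Cantelli -/
def S_DIO : Prop := ∀ᵐ t ∂(volume.restrict (Set.Ico (0 : ℝ) 1)), ∃ c : ℝ, 0 < c ∧ Dio c (pt t)

/-! ### Interpolation -/

/-- INT: Lagrange interpolation. `D = L + Q ∏ (X - w i)` with `deg L < k`; `|L x| ≤ k (R / δ) ^ (k - 1) ε`;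
each division by `X - w` with `|w| = 1` multiplies the sum of the moduli of the coefficients by at most
`N`, so `|Q x| ≤ N ^ (k + 1) (1 + 1 / N) ^ N`. -/
def S_INT : Prop := ∀ (D : ℤ[X]) (N k : ℕ) (z : ℂ) (w : Fin k → ℂ) (R δ ε : ℝ), Flat N D → 1 ≤ N →
  1 ≤ k → ‖z‖ = 1 → (∀ i, ‖w i‖ = 1) → 0 < δ → 0 ≤ ε → (∀ i j, i ≠ j → δ ≤ ‖w i - w j‖) →
  (∀ i, ‖ev D (w i)‖ ≤ ε) → ∀ x : ℂ, ‖x - z‖ ≤ 1 / N → (∀ i, ‖x - w i‖ ≤ R) →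
  ‖ev D x‖ ≤ k * (R / δ) ^ (k - 1) * ε + 4 * (N : ℝ) ^ (k + 1) * R ^ k

/-- LOC (from PTS, INT): if all points of `E` have a gap and `E` has density `≥ η` near `t` at all
scales, then the flat polynomials which are small at `t` are small on a disc -/
def S_LOC : Prop := ∀ (N k M m₀ : ℕ) (ρ Γ η : ℝ) (E : Set ℝ) (t : ℝ), 1 ≤ N → 1 ≤ k → 0 < ρ → 2 ≤ Γ →
  0 < η → (∀ t' ∈ E, GapN (pt t') N ρ Γ) → t ∈ E →
  (∀ m ≤ M, ENNReal.ofReal (η / 2 ^ m) ≤ volume (E ∩ J m t)) → m₀ ≤ M →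
  16 * (N : ℝ) ≤ 2 ^ m₀ → (23 / (2 : ℝ) ^ m₀) ^ k * (4 * (N : ℝ) ^ (k + 1)) ≤ ρ / 2 →
  k * (18 * k / η) ^ (k - 1) * 2 ≤ Γ → 100 * (N : ℝ) ^ 2 ≤ ρ * 2 ^ M →
  ∀ D ∈ Sm (pt t) N ρ, ∀ x : ℂ, ‖x - pt t‖ ≤ 16 / 2 ^ m₀ → ‖ev D x‖ ≤ ρ

/-! ### The lattice of the small polynomials -/

/-- BAS: a small set `F` of exponents; all other `X ^ k` are combinations of the `X ^ j`, `j ∈ F`, `j < k`,
with coefficients in `{-1, 0, 1}`, up to elements of `Sm`. (`k ∈ F` iff there is no such relation,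
recursively; pigeonhole for the `2 ^ |F|` sums of the `X ^ j`, `j ∈ F`.) -/
def S_BAS : Prop := ∀ (z : ℂ) (N : ℕ) (ρ : ℝ), ‖z‖ = 1 → 1 ≤ N → 0 < ρ → ρ ≤ 1 →
  ∃ F : Finset ℕ, F ⊆ Finset.range N ∧ (2 : ℝ) ^ F.card ≤ (8 * N / ρ) ^ 2 ∧
    ∀ k ∈ Finset.range N \ F, ∃ D ∈ Sm z N ρ, D.Monic ∧ D.natDegree = k ∧
      ∀ j < k, j ∉ F → D.coeff j = 0

/-- REG: ridge regression. With `b k = X ^ k - R k`, `R k` in `ℝ ^ F`, `A k = 1 + ∑ i < k, R i R iᵀ`, the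
least square norm of `b k + ∑ i < k, c i b i` is at most `q k = 1 + R kᵀ (A k)⁻¹ R k` (`c i = - R iᵀ (A k)⁻¹ R k`),
and `∏ q k = det A ≤ (1 + N) ^ |F|` (matrix determinant lemma; AM-GM for the eigenvalues, or
`det ≤ (trace / f) ^ f`). -/
def S_REG : Prop := ∀ (N : ℕ) (F : Finset ℕ) (b : ℕ → ℝ[X]), 1 ≤ N → F ⊆ Finset.range N →
  2 * F.card ≤ N →
  (∀ k ∈ Finset.range N \ F, (b k).Monic ∧ (b k).natDegree = k ∧ (∀ j, |(b k).coeff j| ≤ 1) ∧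
    ∀ j < k, j ∉ F → (b k).coeff j = 0) →
  ∃ k ∈ Finset.range N \ F, ∃ c : ℕ → ℝ,
    ∑ j ∈ Finset.range (k + 1), ((b k + ∑ i ∈ Finset.range k \ F, C (c i) * b i).coeff j) ^ 2 ≤
      Real.exp (2 * F.card * Real.log (N + 1) / N)

/-- MMB (from REG; see `K7/H54/DP/MULT.lean`, lemma `mahler`) -/
def S_MMB : Prop := ∀ (N : ℕ) (F : Finset ℕ) (b : ℕ → ℤ[X]) (G : ℤ[X]), 1 ≤ N →
  F ⊆ Finset.range N → 2 * F.card ≤ N →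
  (∀ k ∈ Finset.range N \ F, (b k).Monic ∧ (b k).natDegree = k ∧ (∀ j, |(b k).coeff j| ≤ 1) ∧
    ∀ j < k, j ∉ F → (b k).coeff j = 0) →
  (∀ k ∈ Finset.range N \ F, G ∣ b k) →
  MM G ≤ Real.exp (F.card * Real.log (N + 1) / N) ∧ G.natDegree ≤ F.card

/-! ### Polynomials of very small Mahler measure -/

/-- DOB: Dobrowolski's theorem for polynomials (see `Pool/Agent/H388SL/DobC.lean`, theorem `dob`) -/
def S_DOB : Prop := ∃ c : ℝ, 0 < c ∧ ∀ F : ℤ[X], Irreducible F → 1 ≤ F.natDegree → F ≠ X → F ≠ -X →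
  (∀ q : ℕ, 1 ≤ q → F ≠ cyclotomic q ℤ ∧ F ≠ -cyclotomic q ℤ) →
  c / (Real.log (2 * F.natDegree)) ^ 3 ≤ Real.log (MM F)

/-- TOT: `q ≥ ω(q)!` gives `2 ^ ω(q) ≤ C q ^ (1/4)`; `φ(q) ≥ √(q/2)` -/
def S_TOT : Prop := (∀ q : ℕ, 1 ≤ q → q ≤ 2 * q.totient ^ 2) ∧
  ∀ c : ℝ, 0 < c → ∃ Q : ℕ, ∀ q : ℕ, Q ≤ q →
    (2 : ℝ) ^ q.primeFactors.card * Real.log (c * q ^ 2) ≤ q.totient / 24

/-- CYC: `Φ_q = ∏ (X ^ d - 1) ^ μ(q / d)` -/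
def S_CYC : Prop := ∀ (q : ℕ) (x : ℂ) (c : ℝ), 1 ≤ q → 0 < c → c ≤ 1 →
  (∀ d ∈ q.divisors, c / (d : ℝ) ^ 2 ≤ ‖x ^ d - 1‖ ∧ ‖x ^ d - 1‖ ≤ 3) →
  (c / (3 * (q : ℝ) ^ 2)) ^ (2 ^ q.primeFactors.card) ≤ ‖ev (cyclotomic q ℤ) x‖

/-- MUL: a flat polynomial has no zero of high multiplicity on the unit circle. (If `(X - ζ) ^ e`
divides `D = ∑ a j X ^ j` then `∑ a j ζ ^ j f j = 0` for all polynomials `f` of degree `< e`. Take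
`f (x) = T_k ((N + 1 - 2 (x - j₀)) / (N - 1)) ^ m` with the Chebyshev polynomial `T_k`, `k = ⌈√N⌉`,
`m = ⌈log N⌉`, and `j₀` the least exponent of `D`; `T_k (1 + δ) ≥ 1 + k ^ 2 δ`.) -/
def S_MUL : Prop := ∃ N₀ : ℕ, ∀ N : ℕ, N₀ ≤ N → ∀ D : ℤ[X], D ≠ 0 → Flat N D →
  ∀ (ζ : ℂ) (e : ℕ), ‖ζ‖ = 1 → (X - C ζ) ^ e ∣ D.map (Int.castRingHom ℂ) →
  (e : ℝ) ≤ (N : ℝ) ^ (3 / 4 : ℝ)

/-- LOW (from DOB, TOT, CYC, MUL) -/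
def S_LOW : Prop := ∀ c : ℝ, 0 < c → ∃ N₀ : ℕ, ∀ N : ℕ, N₀ ≤ N → ∀ z : ℂ, ‖z‖ = 1 → Dio c z →
  ∀ G D : ℤ[X], D ≠ 0 → Flat N D → G ∣ D → (G.natDegree : ℝ) ≤ 4 * sN N →
  MM G ≤ Real.exp (8 / (Real.log N) ^ 5) → ∀ x : ℂ, ‖x - z‖ ≤ 1 / (N : ℝ) ^ 10 →
  Real.exp (-(sN N / 4)) ≤ ‖ev G x‖

/-! ### The determinant -/

/-- SPA: the cofactors span all polynomials of degree `< 2 m` -/
def S_SPA : Prop := ∀ (Δ : Set ℤ[X]) (G : ℤ[X]) (M m : ℕ), G ≠ 0 →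
  (∀ P ∈ Δ, ∃ u : ℤ[X], P = G * u ∧ u.natDegree ≤ m) →
  (∃ P ∈ Δ, ∃ u : ℤ[X], P = G * u ∧ u.natDegree = m ∧ u ≠ 0) →
  G.map (Int.castRingHom ℝ) ∈ Submodule.span ℝ (Mult Δ M) →
  ∃ v : Fin (2 * m) → ℤ[X],
    (∀ i, ∃ P ∈ Δ, ∃ u : ℤ[X], ∃ k < m, P = G * u ∧ v i = X ^ k * u) ∧
    (Matrix.of fun i j : Fin (2 * m) => (v i).coeff j).det ≠ 0

/-- DTM: the matrix of the `v i` in the coordinates: Taylor coefficients at `z` of order `< K`,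
coefficients of `G v` at `g + j`, `j ≥ K` (an upper triangular change of coordinates with ones on the
diagonal) has an integer determinant `≠ 0` -/
def S_DTM : Prop := ∀ (d K : ℕ) (v : Fin d → ℤ[X]) (G : ℤ[X]) (z : ℂ) (τ : ℝ), G.Monic → 0 ≤ τ →
  (∀ i, (v i).natDegree < d) → (∀ i j, |(G * v i).coeff j| ≤ 1) →
  (Matrix.of fun i j : Fin d => (v i).coeff j).det ≠ 0 →
  (∀ i, ∀ j < K, ‖ev (hasseDeriv j (v i)) z‖ ≤ τ) →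
  1 ≤ (d.factorial : ℝ) * τ ^ (min K d)

/-- JET: Cauchy's estimate -/
def S_JET : Prop := ∀ (u : ℤ[X]) (z : ℂ) (r B : ℝ) (j : ℕ), 0 < r →
  (∀ x : ℂ, ‖x - z‖ ≤ r → ‖ev u x‖ ≤ B) → ‖ev (hasseDeriv j u) z‖ ≤ B / r ^ j

/-- DET (from SPA, DTM, JET) -/
def S_DET : Prop := ∀ (N K : ℕ) (z : ℂ) (r β : ℝ) (Δ : Set ℤ[X]) (G : ℤ[X]) (M : ℕ), 1 ≤ N →
  1 ≤ K → 0 < r → r ≤ 1 / N → 0 ≤ β → ‖z‖ = 1 → (∀ P ∈ Δ, Flat N P) → (∃ P ∈ Δ, P ≠ 0) →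
  (∀ P ∈ Δ, G ∣ P) → G.Monic → G.map (Int.castRingHom ℝ) ∈ Submodule.span ℝ (Mult Δ M) →
  (∀ x : ℂ, ‖x - z‖ ≤ r → ev G x ≠ 0) →
  (∀ P ∈ Δ, ∀ x : ℂ, ‖x - z‖ ≤ r → ‖ev P x‖ ≤ β * ‖ev G x‖) →
  3 * β / r ^ K * (2 * N) < 1 → (3 * β / r ^ K) ^ K * (2 * (N : ℝ)) ^ (2 * N) < 1 → False

/-! ### Assembly -/

/-- MEA (from DYA, LOC, BAS, MMB, LOW, DET and `StGcd`) -/
def S_MEA : Prop := ∀ c : ℝ, 0 < c → ∃ N₀ : ℕ, ∀ N : ℕ, N₀ ≤ N →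
  volume {t : ℝ | t ∈ Set.Ico (0 : ℝ) 1 ∧ Dio c (pt t) ∧ GapN (pt t) N (ρN N) (ΓN N)} ≤
    ENNReal.ofReal (1 / (N : ℝ) ^ 2)

/-- AEG (from MEA, DIO) -/
def S_AEG : Prop := ∀ᵐ t ∂(volume.restrict (Set.Ico (0 : ℝ) 1)),
  ∃ N₀ : ℕ, ∀ N : ℕ, N₀ ≤ N → ¬ GapN (pt t) N (ρN N) (ΓN N)

/-- all values up to `exp (-y)` are attained, up to a factor, by polynomials of weight at most `n` -/
def CoverY (θ y : ℝ) (n : ℕ) : Prop := ∀ (r : ℝ) (u : ℂ), Real.exp (-y) ≤ r → r ≤ 1 →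
  ‖u‖ = 1 → ∃ (D : ℕ) (b : ℕ → ℤ), weight D b ≤ n ∧ ‖val θ D b - r * u‖ ≤ r / 50

/-- COM: a flat polynomial with a value of the right order, times a polynomial of small weight -/
def S_COM : Prop := ∀ θ : ℝ, (∃ N₀ : ℕ, ∀ N : ℕ, N₀ ≤ N → ¬ GapN (zz θ) N (ρN N) (ΓN N)) →
  (∃ n₀ : ℕ, ∀ n : ℕ, n₀ ≤ n → Cover θ (3 / 5) n) →
  ∃ n₀ : ℕ, ∀ n : ℕ, n₀ ≤ n → CoverY θ (n / (Real.log n) ^ 25) n

/-- FIN -/
def S_FIN : Prop := ∀ᵐ θ ∂(volume.restrict (Set.Ico (0 : ℝ) (2 * Real.pi))),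
  ∃ n₀ : ℕ, ∀ n : ℕ, n₀ ≤ n →
    DPV n (Real.exp (n / (Real.log n) ^ 25)) θ ∧
      (Real.exp (n / (Real.log n) ^ 25) : EReal) ≤ RDPV n θ

end Pool.Agent.L7h33.DQ
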